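import Mathlib

/-!
# MP_66d22e_co: a triplet cover of a binary phylogenetic tree that is not shellable

The tree has 14 leaves (the vertices `0, ..., 13`) and 12 interior vertices
(the vertices `14, ..., 25`).  The cover consists of 36 pairs, one triangle for each interior
vertex.  For no pair of leaves outside of the cover the shelling rule applies.
-/

namespace Pool.Agent.Results.MP_66d22e_co.NotShellable

open SimpleGraph

section Definitions

variable {V : Type*}

/-- `T` is a binary phylogenetic `X`-tree: a tree with leaf set `X` in which every other vertex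
has degree 3. -/
def IsBinaryPhylo (T : SimpleGraph V) (X : Set V) : Prop :=
  T.IsTree ∧ (∀ v, v ∈ X ↔ (T.neighborSet v).ncard = 1) ∧
    ∀ v, v ∉ X → (T.neighborSet v).ncard = 3

/-- The set of all 2-element subsets of `X`. -/
def pairs (X : Set V) : Set (Sym2 V) := {e | ¬ e.IsDiag ∧ ∀ v ∈ e, v ∈ X}

/-- `a` and `b` lie in different connected components of `T` with `v` removed. -/
def SepBy (T : SimpleGraph V) (v a b : V) : Prop :=
  a ≠ v ∧ b ≠ v ∧ ∀ p : T.Walk a b, v ∈ p.support

/-- The triple `abc` supports the vertex `v` relative to `P`. -/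
def Supports (T : SimpleGraph V) (P : Set (Sym2 V)) (v a b c : V) : Prop :=
  SepBy T v a b ∧ SepBy T v a c ∧ SepBy T v b c ∧ s(a, b) ∈ P ∧ s(a, c) ∈ P ∧ s(b, c) ∈ P

/-- `P` is a triplet cover for the binary phylogenetic `X`-tree `T`. -/
def IsTripletCover (T : SimpleGraph V) (X : Set V) (P : Set (Sym2 V)) : Prop :=
  P ⊆ pairs X ∧ ∀ v, v ∉ X → ∃ a ∈ X, ∃ b ∈ X, ∃ c ∈ X, Supports T P v a b c

/-- The restriction of `T` to `{x, a, y, b}` is the quartet `xa|yb`. -/
def Quartet (T : SimpleGraph V) (x a y b : V) : Prop :=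
  ∃ (p : T.Walk x a) (q : T.Walk y b), p.IsPath ∧ q.IsPath ∧ ∀ v, v ∈ p.support → v ∉ q.support

/-- The set `P` of pairs of leaves is `T`-shellable: the pairs outside of `P` can be ordered as
`a 0 b 0, a 1 b 1, ...` such that for each `i` there are two further leaves `x`, `y` with quartet
`x (a i) | y (b i)`, all five other pairs of elements of `{a i, b i, x, y}` being in `P` or
earlier in the ordering. -/
def IsShellable (T : SimpleGraph V) (X : Set V) (P : Set (Sym2 V)) : Prop :=
  ∃ (m : ℕ) (a b : Fin m → V),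
    (Function.Injective fun i => s(a i, b i)) ∧
    (Set.range fun i => s(a i, b i)) = pairs X \ P ∧
    ∀ i, ∃ x ∈ X, ∃ y ∈ X, x ≠ y ∧ x ≠ a i ∧ x ≠ b i ∧ y ≠ a i ∧ y ≠ b i ∧
      Quartet T x (a i) y (b i) ∧
      ∀ e ∈ ({s(a i, x), s(a i, y), s(b i, x), s(b i, y), s(x, y)} : Set (Sym2 V)),
        e ∈ P ∨ ∃ j < i, e = s(a j, b j)

end Definitions

/-- Adjacency masks of the tree. -/
def adjM : List ℕ := [262144, 32768, 33554432, 65536, 524288, 131072, 262144, 8388608, 1048576,
  2097152, 4194304, 8388608, 16777216, 33554432, 5275648, 81922, 16809992, 35651616, 1048641,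
  25165840, 278784, 4325888, 2114560, 526464, 593920, 139268]

/-- Adjacency masks of the cover. -/
def covM : List ℕ := [4674, 2253, 9994, 4134, 960, 13512, 1331, 10802, 14420, 5269, 612, 4482,
  2857, 420, 0, 0, 0, 0, 0, 0, 0, 0, 0, 0, 0, 0]

/-- Parents (root 14). -/
def parL : List (Fin 26) := [18, 15, 25, 16, 19, 17, 18, 23, 20, 21, 22, 23, 24, 25, 14, 14, 15,
  21, 20, 24, 14, 22, 14, 19, 16, 17]

/-- Depths. -/
def depL : List ℕ := [3, 2, 5, 3, 5, 4, 3, 6, 2, 3, 2, 6, 4, 5, 0, 1, 2, 3, 2, 4, 1, 2, 1, 5, 3, 4]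

/-- Components of the tree minus a vertex, in base 4. -/
def colL : List ℕ := [3, 12, 48, 192, 768, 3072, 12288, 49152, 196608, 786432, 3145728, 12582912,
  50331648, 201326592, 2296983811856417, 1853324938024593, 1853327085508117, 2627134209479013,
  3002468471052968, 2932305881098410, 1503467618461014, 1880880643745434, 2666699447425381,
  3072768491530922, 2134793438729813, 4128299591314058]

/-- Supporting triples. -/
def triL : List (Fin 26 × Fin 26 × Fin 26) := [(0, 0, 0), (0, 0, 0), (0, 0, 0), (0, 0, 0),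
  (0, 0, 0), (0, 0, 0), (0, 0, 0), (0, 0, 0), (0, 0, 0), (0, 0, 0), (0, 0, 0), (0, 0, 0),
  (0, 0, 0), (0, 0, 0), (0, 9, 12), (1, 2, 3), (3, 5, 12), (5, 7, 13), (0, 1, 6), (4, 7, 9),
  (4, 6, 8), (2, 9, 10), (5, 6, 10), (1, 7, 11), (8, 11, 12), (2, 8, 13)]

def tadj (i j : Fin 26) : Bool := (adjM.getD i.val 0).testBit j.val
def cadj (i j : Fin 26) : Bool := (covM.getD i.val 0).testBit j.val
def par (i : Fin 26) : Fin 26 := parL.getD i.val 0
def dep (i : Fin 26) : ℕ := depL.getD i.val 0
def col (v i : Fin 26) : ℕ := colL.getD v.val 0 / 4 ^ i.val % 4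
def tri (v : Fin 26) : Fin 26 × Fin 26 × Fin 26 := triL.getD v.val (0, 0, 0)

/-- The tree. -/
def T : SimpleGraph (Fin 26) where
  Adj i j := tadj i j = true
  symm := ⟨by decide +kernel⟩
  loopless := ⟨by decide +kernel⟩

/-- The cover as a graph. -/
def C : SimpleGraph (Fin 26) where
  Adj i j := cadj i j = true
  symm := ⟨by decide +kernel⟩
  loopless := ⟨by decide +kernel⟩

instance : DecidableRel T.Adj := fun i j => inferInstanceAs (Decidable (tadj i j = true))
instance : DecidableRel C.Adj := fun i j => inferInstanceAs (Decidable (cadj i j = true))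

/-- The leaves. -/
def X : Set (Fin 26) := {v | v.val < 14}

lemma reach (v : Fin 26) : T.Reachable v 14 := by
  have key : ∀ v : Fin 26, v ≠ 14 → T.Adj v (par v) ∧ dep (par v) < dep v := by decide +kernel
  have : ∀ d : ℕ, ∀ v : Fin 26, dep v ≤ d → T.Reachable v 14 := by
    intro d
    induction d with
    | zero =>
      intro v hv
      by_cases h : v = 14
      · subst h; exact Reachable.refl _
      · have := (key v h).2
        omega
    | succ d ih =>
      intro v hv
      by_cases h : v = 14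
      · subst h; exact Reachable.refl _
      · obtain ⟨h1, h2⟩ := key v h
        exact h1.reachable.trans (ih _ (by omega))
  exact this _ v le_rfl

lemma isTree : T.IsTree := by
  rw [isTree_iff_connected_and_card]
  refine ⟨?_, ?_⟩
  · have : T.Preconnected := fun u v => (reach u).trans (reach v).symm
    exact { preconnected := this, nonempty := ⟨0⟩ }
  · rw [Nat.card_eq_fintype_card, Nat.card_eq_fintype_card, Fintype.card_fin,
      ← edgeFinset_card]
    have : T.edgeFinset.card = 25 := by decide +kernel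
    rw [this]

lemma ncard_nbr (v : Fin 26) :
    (T.neighborSet v).ncard = (Finset.univ.filter fun w => T.Adj v w).card := by
  rw [← Set.ncard_coe_finset]
  congr 1
  ext w
  simp

lemma phylo : IsBinaryPhylo T X := by
  refine ⟨isTree, fun v => ?_, fun v => ?_⟩
  · rw [ncard_nbr]
    have : ∀ v : Fin 26, v.val < 14 ↔ (Finset.univ.filter fun w => T.Adj v w).card = 1 := by
      decide +kernel
    exact this v
  · rw [ncard_nbr]
    have : ∀ v : Fin 26, ¬ v.val < 14 → (Finset.univ.filter fun w => T.Adj v w).card = 3 := by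
      decide +kernel
    exact this v

lemma sep (v : Fin 26) {a b : Fin 26} (p : T.Walk a b) (h : col v a ≠ col v b) :
    v ∈ p.support := by
  have key : ∀ v i j : Fin 26, T.Adj i j → i ≠ v → j ≠ v → col v i = col v j := by
    decide +kernel
  induction p with
  | nil => exact absurd rfl h
  | @cons a c b hac p ih =>
    by_cases h1 : a = v
    · subst h1; simp
    by_cases h2 : c = v
    · subst h2
      simp only [Walk.support_cons, List.mem_cons]
      exact Or.inr p.start_mem_support
    have := key v a c hac h1 h2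
    simp only [Walk.support_cons, List.mem_cons]
    exact Or.inr (ih (by rw [← this]; exact h))

lemma cover : IsTripletCover T X C.edgeSet := by
  refine ⟨?_, fun v hv => ?_⟩
  · intro e he
    induction e with
    | h a b =>
      rw [mem_edgeSet] at he
      refine ⟨?_, ?_⟩
      · rw [Sym2.mk_isDiag_iff]
        exact he.ne
      · have key : ∀ i j : Fin 26, C.Adj i j → i.val < 14 ∧ j.val < 14 := by decide +kernel
        intro w hw
        rw [Sym2.mem_iff] at hw
        rcases hw with rfl | rfl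
        · exact (key _ _ he).1
        · exact (key _ _ he).2
  · have key : ∀ v : Fin 26, ¬ v.val < 14 →
      ((tri v).1.val < 14 ∧ (tri v).2.1.val < 14 ∧ (tri v).2.2.val < 14) ∧
      (col v (tri v).1 ≠ col v (tri v).2.1 ∧ col v (tri v).1 ≠ col v (tri v).2.2 ∧
        col v (tri v).2.1 ≠ col v (tri v).2.2) ∧
      ((tri v).1 ≠ v ∧ (tri v).2.1 ≠ v ∧ (tri v).2.2 ≠ v) ∧
      C.Adj (tri v).1 (tri v).2.1 ∧ C.Adj (tri v).1 (tri v).2.2 ∧
        C.Adj (tri v).2.1 (tri v).2.2 := by decide +kernel
    obtain ⟨⟨a1, a2, a3⟩, ⟨b1, b2, b3⟩, ⟨c1, c2, c3⟩, d1, d2, d3⟩ := key v hv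
    exact ⟨_, a1, _, a2, _, a3, ⟨c1, c2, fun p => sep v p b1⟩, ⟨c1, c3, fun p => sep v p b2⟩,
      ⟨c2, c3, fun p => sep v p b3⟩, d1, d2, d3⟩

/-- The shelling rule applies to no pair outside of the cover. -/
lemma no_step {a b x y : Fin 26} (hab : ¬ C.Adj a b) (h : a ≠ b) (h1 : C.Adj a x)
    (h2 : C.Adj a y) (h3 : C.Adj b x) (h4 : C.Adj b y) (h5 : C.Adj x y) : ¬ Quartet T x a y b := by
  have key : ∀ a x : Fin 26, C.Adj a x → ∀ y : Fin 26, C.Adj a y → C.Adj x y →
      ∀ b : Fin 26, C.Adj b x → C.Adj b y → ¬ C.Adj a b → a ≠ b →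
      ∃ v : Fin 26, col v x ≠ col v a ∧ col v y ≠ col v b := by decide +kernel
  obtain ⟨v, hv1, hv2⟩ := key a x h1 y h2 h5 b h3 h4 hab h
  rintro ⟨p, q, -, -, hd⟩
  exact hd v (sep v p hv1) (sep v q hv2)

/-- There is a triplet cover for a binary phylogenetic tree that is not shellable. -/
theorem result : ∃ (n : ℕ) (T : SimpleGraph (Fin n)) (X : Set (Fin n))
    (P : Set (Sym2 (Fin n))), 3 ≤ X.ncard ∧ IsBinaryPhylo T X ∧ IsTripletCover T X P ∧
      ¬ IsShellable T X P := by
  refine ⟨26, T, X, C.edgeSet, ?_, phylo, cover, ?_⟩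
  · have : (({0, 1, 2} : Finset (Fin 26)) : Set (Fin 26)) ⊆ X := by
      intro v hv
      simp only [Finset.coe_insert, Finset.coe_singleton, Set.mem_insert_iff,
        Set.mem_singleton_iff] at hv
      rcases hv with rfl | rfl | rfl
      · show ((0 : Fin 26)).val < 14; decide
      · show ((1 : Fin 26)).val < 14; decide
      · show ((2 : Fin 26)).val < 14; decide
    calc 3 = (({0, 1, 2} : Finset (Fin 26)) : Set (Fin 26)).ncard := by
          rw [Set.ncard_coe_finset]; decide
      _ ≤ X.ncard := Set.ncard_le_ncard this (Set.toFinite _)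
  · rintro ⟨m, a, b, -, hr, hs⟩
    have hne : s((0 : Fin 26), (2 : Fin 26)) ∈ pairs X \ C.edgeSet := by
      refine ⟨⟨?_, ?_⟩, ?_⟩
      · rw [Sym2.mk_isDiag_iff]; decide
      · intro w hw
        rw [Sym2.mem_iff] at hw
        rcases hw with rfl | rfl
        · show (0 : ℕ) < 14; norm_num
        · show ((2 : Fin 26)).val < 14; decide
      · rw [mem_edgeSet]; decide +kernel
    rw [← hr] at hne
    obtain ⟨i0, -⟩ := hne
    have hm : 0 < m := i0.pos
    obtain ⟨x, -, y, -, hxy, -, -, -, -, hq, he⟩ := hs ⟨0, hm⟩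
    have h0 : ∀ e ∈ ({s(a ⟨0, hm⟩, x), s(a ⟨0, hm⟩, y), s(b ⟨0, hm⟩, x), s(b ⟨0, hm⟩, y),
        s(x, y)} : Set (Sym2 (Fin 26))), e ∈ C.edgeSet := by
      intro e hh
      rcases he e hh with h | ⟨j, hj, -⟩
      · exact h
      · exact absurd hj (by simp [Fin.lt_def])
    have hmem : s(a ⟨0, hm⟩, b ⟨0, hm⟩) ∈ pairs X \ C.edgeSet := by
      rw [← hr]; exact ⟨_, rfl⟩
    obtain ⟨⟨hd, -⟩, hn⟩ := hmem
    rw [Sym2.mk_isDiag_iff] at hd
    rw [mem_edgeSet] at hn
    refine no_step hn hd ?_ ?_ ?_ ?_ ?_ hq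
    · exact (mem_edgeSet C).1 (h0 _ (by simp))
    · exact (mem_edgeSet C).1 (h0 _ (by simp))
    · exact (mem_edgeSet C).1 (h0 _ (by simp))
    · exact (mem_edgeSet C).1 (h0 _ (by simp))
    · exact (mem_edgeSet C).1 (h0 _ (by simp))

end Pool.Agent.Results.MP_66d22e_co.NotShellable
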